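import Pool.Agent.Zk85.CS.Amal

/-!
# Graphs of groups whose edge groups lie in normal subgroups with compatible series

`C` is any class of groups with the closure properties `ClosedE C` which contains the metabelian
groups. All this is known for the class of the groups that satisfy the Farrell-Jones conjecture with
coefficients in additive categories and finite wreath products, so that `C` may be this class.

Let `G` act on a tree `T`. A *compatible series* consists of normal subgroups
`1 = N 0 v ≤ N 1 v ≤ N 2 v ≤ ...` of the stabilizer `G_v` of each vertex `v`, permuted by `G`, such that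
`N i u ∩ G_v = N i v ∩ G_u` for all neighbours `u`, `v` (`Compatible`).

(1) **Commutative factors.** Suppose that the factors `N (i+1) v / N i v`, `i < k`, are commutative,
that the stabilizers of the edges at `v` are contained in `N k v`, and that `G_v / N k v` is (embeds in a
group) in `C`. Then `G` is in `C`. For `k = 1`: it is enough that the edge groups at each vertex are
contained in an equivariant commutative normal subgroup of the vertex group whose quotient is in `C`.
The theorem of Gandini, Meinert and Rüping on graphs of commutative groups is the case where this is the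
whole vertex group.

(2) **Graphs of solvable groups.** Suppose that the vertex stabilizers are solvable of derived length
at most `k`, and that for neighbours `u`, `v` the derived subgroups `G_u^(i)` and `G_v^(i)` contain the
same elements of `G_u ∩ G_v`, for all `i`. Then `G` is in `C`. The same holds for nilpotent vertex groups
and the upper central series. For instance, in a torsion-free nilpotent group the upper central series
meets every subgroup of finite index in its upper central series, so `G` may be any group that acts on
a tree with commensurable torsion-free nilpotent vertex stabilizers of bounded class.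

(3) **General factors.** In (1) one may replace the commutativity of `N (i+1) v / N i v` by the two
conditions that `G_e ∩ N (i+1) v / G_e ∩ N i v` embeds in the abelianization of `N (i+1) v / N i v` for
the edges `e` at `v`, and that the groups generated by `N (i+1) v / N i v` and an element of `G_v / N i v`
are in `C`. And the conditions on the edge groups and on `G_v / N k v` may be replaced by the condition
that `G / M` is in `C`, where `M` is the subgroup generated by all `N k v`.

(4) **Amalgams and HNN extensions.** Let `A` and `B` be groups with commutative normal subgroups `N` and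
`M` such that `A / N` and `B / M` are in `C`. Then every amalgam of `A` and `B` along a common subgroup
of `N` and `M` is in `C`, and so is every HNN extension of `A` along an isomorphism between two
subgroups of `N`. For instance, if `z` is a central element of `A` and `A / ⟨z⟩` is in `C`, then the HNN
extensions `⟨A, t | t z^p t⁻¹ = z^q⟩` are in `C`.

Nothing is assumed about finiteness properties, torsion or commensurability of the edge groups. The
subgroups of the vertex groups are only compatible along the edges: they need not come from a normal
subgroup or a homomorphism given in advance.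

Outline of the proof. The main step is that the subgroup `M` of `G` generated by the groups `N 1 v` meets
the stabilizer of `v` exactly in `N 1 v` (`Zk85.CS.Cmp.stab`). To see this one shows that the pieces of the
tree cut out by a transversal for the moves by the `N 1 v` are permuted by `M`: a section of the
projection to the quotient tree is constructed by recursion along the edges, and compatibility shows
that it is independent of the path up to `N 1 v`. Hence `G / M` acts on a quotient tree `T / M` with
stabilizers `G_v / N 1 v`, and the `N (i+1) v / N 1 v` form a compatible series of length `k - 1`. By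
induction `G / M` is in `C`. The group `M` acts on `T` with stabilizers `N 1 v`, and the edge groups embed in
the abelianizations of the vertex groups; so a cyclic extension of `M` maps to a metabelian group such that
the edge groups are embedded, and it is in `C` by the criterion `N509.TK.hcrit`. The closure property for
extensions shows that `G` is in `C`.
-/

set_option autoImplicit false

namespace Pool.Agent.Results.MP_5d3e93_al.CompatibleSeries

open Pool.Agent.Y110.FJ (ClosedE)
open Pool.Agent.Helper705_SA (IsAmalgam)

/-- `H / (H ∩ K)` embeds in a group in the class: some homomorphism from `H` to a group in the class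
has kernel `H ∩ K`. -/
def EmbedsMod (C : ∀ (G : Type) [Group G], Prop) {G : Type} [Group G] (H K : Subgroup G) : Prop :=
  ∃ (P : Type) (_ : Group P) (φ : H →* P), C P ∧ ∀ x : H, φ x = 1 ↔ (x : G) ∈ K

/-- The groups `N i v` form an ascending series of subgroups of the stabilizer of `v`, starting with the
trivial group; they are permuted by `G` (in particular `N i v` is normal in the stabilizer of `v`), and
`N i u` and `N i v` contain the same elements of the stabilizer of the edge `uv`. -/
structure Compatible {G V : Type} [Group G] [MulAction G V] (T : SimpleGraph V)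
    (N : ℕ → V → Subgroup G) : Prop where
  zero : ∀ v, N 0 v = ⊥
  mono : ∀ i v, N i v ≤ N (i + 1) v
  le_stabilizer : ∀ i v, N i v ≤ MulAction.stabilizer G v
  conj : ∀ i (g : G) v, ∀ n ∈ N i v, g * n * g⁻¹ ∈ N i (g • v)
  compat : ∀ i u v, T.Adj u v → ∀ n ∈ N i u, n • v = v → n ∈ N i v

/-- For all `i < k` the factors `N (i+1) v / N i v` are commutative, or they satisfy the two conditions
in (3). -/
def GoodFactors (C : ∀ (G : Type) [Group G], Prop) {G V : Type} [Group G] [MulAction G V]
    (T : SimpleGraph V) (N : ℕ → V → Subgroup G) (k : ℕ) : Prop :=
  ∀ i, i < k → (∀ v, ⁅N (i + 1) v, N (i + 1) v⁆ ≤ N i v) ∨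
    ((∀ u v, T.Adj u v → ∀ x ∈ ⁅N (i + 1) u, N (i + 1) u⁆ ⊔ N i u, x • v = v → x ∈ N i u) ∧
      ∀ (v : V) (g : G), g • v = v → EmbedsMod C (N (i + 1) v ⊔ Subgroup.zpowers g) (N i v))

open Pool.Agent.Zk85.CS in
theorem result (C : ∀ (G : Type) [Group G], Prop) (hC : ClosedE C)
    (hM : ∀ (G : Type) [Group G], derivedSeries G 2 = ⊥ → C G) :
    -- actions on trees
    (∀ (G V : Type) [Group G] [MulAction G V] (T : SimpleGraph V), T.IsTree →
      (∀ (g : G) (u v : V), T.Adj u v → T.Adj (g • u) (g • v)) →
      -- (1), (3)
      (∀ (k : ℕ) (N : ℕ → V → Subgroup G), Compatible T N → GoodFactors C T N k →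
        (∀ [(⨆ v, N k v).Normal], C (G ⧸ ⨆ v, N k v) → C G) ∧
        ((∀ u v, T.Adj u v → MulAction.stabilizer G u ⊓ MulAction.stabilizer G v ≤ N k u) →
          (∀ v, EmbedsMod C (MulAction.stabilizer G v) (N k v)) → C G)) ∧
      -- (2) solvable vertex groups
      (∀ k : ℕ, (∀ v : V, derivedSeries (MulAction.stabilizer G v) k = ⊥) →
        (∀ u v, T.Adj u v → ∀ i, ∀ x : G, ∀ (hu : x ∈ MulAction.stabilizer G u)
          (hv : x ∈ MulAction.stabilizer G v),
          (⟨x, hu⟩ : MulAction.stabilizer G u) ∈ derivedSeries (MulAction.stabilizer G u) i →
          (⟨x, hv⟩ : MulAction.stabilizer G v) ∈ derivedSeries (MulAction.stabilizer G v) i) →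
        C G) ∧
      -- (2) nilpotent vertex groups
      (∀ k : ℕ, (∀ v : V, Subgroup.upperCentralSeries (MulAction.stabilizer G v) k = ⊤) →
        (∀ u v, T.Adj u v → ∀ i, ∀ x : G, ∀ (hu : x ∈ MulAction.stabilizer G u)
          (hv : x ∈ MulAction.stabilizer G v),
          (⟨x, hu⟩ : MulAction.stabilizer G u) ∈
            Subgroup.upperCentralSeries (MulAction.stabilizer G u) i →
          (⟨x, hv⟩ : MulAction.stabilizer G v) ∈
            Subgroup.upperCentralSeries (MulAction.stabilizer G v) i) →
        C G)) ∧
    -- (4) amalgams
    (∀ (G : Type) [Group G] (A B : Subgroup G), IsAmalgam A B → ∀ N M : Subgroup G, N ≤ A → M ≤ B →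
      (∀ n ∈ N, ∀ a ∈ A, a * n * a⁻¹ ∈ N) → (∀ m ∈ M, ∀ b ∈ B, b * m * b⁻¹ ∈ M) →
      (∀ x ∈ N, ∀ y ∈ N, x * y = y * x) → (∀ x ∈ M, ∀ y ∈ M, x * y = y * x) →
      A ⊓ B ≤ N → A ⊓ B ≤ M → EmbedsMod C A N → EmbedsMod C B M → C G) ∧
    -- (4) HNN extensions
    (∀ (G : Type) [Group G] (N A B : Subgroup G) [N.Normal], (∀ x ∈ N, ∀ y ∈ N, x * y = y * x) →
      A ≤ N → B ≤ N → ∀ φ : A ≃* B, C (G ⧸ N) → C (HNNExtension G A B φ)) := by
  refine ⟨?_, ?_, ?_⟩
  · intro G V _ _ T hT hact
    refine ⟨?_, ?_, ?_⟩
    · intro k N h hf
      have hcf : Cf T N := ⟨h.zero, h.mono, fun i =>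
        ⟨fun v n hn => h.le_stabilizer i v hn, h.conj i, h.compat i⟩⟩
      have hhs : Hs C T k N := abs hM k hcf hf
      refine ⟨?_, ?_⟩
      · intro _ hQ
        exact relative hC hM k G V T hT hact N hcf hhs hQ
      · intro he ht
        exact series hC hM k hT hact hcf hhs ⟨fun u v huv g hgu hgv => he u v huv ⟨hgu, hgv⟩, ht⟩
    · intro k hk hcmp
      exact derived hC hM k hT hact hk hcmp
    · intro k hk hcmp
      exact central hC hM k hT hact hk hcmp
  · intro G _ A B h N M hN hM' hNA hMB hNa hMa h1 h2 hA hB
    exact amalgam hC hM A B h hN hM' hNA hMB hNa hMa h1 h2 hA hB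
  · intro G _ N A B _ hab hA hB φ hQ
    exact hnn hC hM G N A B hab hA hB φ hQ

end Pool.Agent.Results.MP_5d3e93_al.CompatibleSeries
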