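import Pool.Agent.Zk53.PA.Lin
import Pool.Agent.Zk85.GL.Mv

/-!
# Families of polynomial automorphisms of the plane and the Farrell-Jones conjecture

`C` is any class of groups with the closure properties `ClosedE C` which contains the solvable groups
and satisfies `AcylF C`: a finitely generated group that acts on a tree without inversions, such that
for some `k` and `n` the pointwise stabilizers of the paths of length at least `k` have at most `n`
elements, is in `C` if the vertex stabilizers are in `C`. All this is known for the class of the groups
which satisfy the Farrell-Jones conjecture with coefficients in additive categories and finite wreath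
products (Bartels, Lück, Reich; Wegner; Knopf). This class also contains the groups `GL_m(ℚ)` (Rüping).

`GA k` is the group `Aut_k(k[x, y])` of the polynomial automorphisms of the plane over the field `k`.

(1) **Families.** Let `K` be a field of characteristic zero such that `GL_2(K)` is in `C`. Then for each
subring `A` of a polynomial ring `K[z_i : i ∈ I]` in any number of variables the group of all
`A`-automorphisms of `A[x, y]` is in `C`. (These are the families of automorphisms of the plane
parametrized by `Spec A`; for `A = K[z]` the group contains the automorphism of Nagata, and it is not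
generated by affine and triangular automorphisms.)

(2) If `C` contains the groups `GL_m(ℚ)` then (1) applies to the field of the algebraic numbers. So for
example for `A = ℤ[z_1, ..., z_n]` and for `A = ℚ̄[z_1, ..., z_n]` the group of the `A`-automorphisms of
`A[x, y]` is in `C` with all its subgroups.

(3) **Bounded denominators.** Let `A` be a domain of characteristic zero, such that for each field
`L ⊇ A` all subgroups of `GL_2(L)` with denominators bounded by an element `d ≠ 0` of `A` are in `C`. Then
for every polynomial ring `B = A[z_i : i ∈ I]` over `A` all groups of polynomial automorphisms of the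
plane over the field of fractions of `B`, whose components have denominators bounded by an element
`d ≠ 0` of `B`, are in `C`.

Outline of the proof. (3) Let `k` be a field of characteristic zero. First, the theorem of Jung and van
der Kulk descends from the algebraic closure to `k`: for a weight given by the Newton polygon the leading
form of the first component is `c (x + z y^m)^g` (or the same with `x` and `y` exchanged) over the
algebraic closure, and `z` is in `k`, since it is a quotient of two coefficients; so the degree can be
lowered over `k`. As in `Pool.Agent.Results.MP_5d3e93_al.PlaneAutomorphisms` (where `k` is algebraically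
closed) the group generated by the affine and the triangular automorphisms of degree at most `D` acts on
its tree such that the pointwise stabilizers of the paths of length `7` have less than `D ^ 2` elements,
so `G ≤ GA k` is in `C` if all groups `G ∩ θ AG θ⁻¹` are in `C`, `AG` the group of the affine
automorphisms. Now let `k` be the field of fractions of `B` and let the denominators of `G` be bounded by
`d`. Let `e` be a common denominator of `θ` and `θ⁻¹` and let `N` be the degree of `θ`. The elements `g` of
`G ∩ θ AG θ⁻¹` satisfy `deg (g θ) ≤ N`, hence those of the conjugate group in `AG` have denominators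
bounded by `e d ^ N e ^ N`, although the degrees of the elements of `G` are not bounded. The linear parts
form a subgroup of `GL_2` with bounded denominators, and the kernel is an abelian group of translations.
The induction from `A` to polynomial rings over `A` for bounded subgroups of `GL_2` is a theorem of
`Pool.Agent.Results.MP_e40716_gt.PolynomialGL2`. (1) follows by base change to the field of fractions.
-/

set_option autoImplicit false

namespace Pool.Agent.Results.MP_5d3e93_al.FamiliesOfPlaneAutomorphisms

open MvPolynomial
open Pool.Agent.Y110.FJ (ClosedE)
open Pool.Agent.N509.TX (AcylF)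
open Pool.Agent.H922R2 (GA)

/-- The groups `Aut_A(A[x, y])` are in `C` for all subrings `A` of the polynomial rings over `K`. -/
def Families (C : ∀ (G : Type) [Group G], Prop) (K : Type) [Field K] : Prop :=
  ∀ (A I : Type) [CommRing A] (i : A →+* MvPolynomial I K), Function.Injective i →
    C (MvPolynomial (Fin 2) A ≃ₐ[A] MvPolynomial (Fin 2) A)

/-- For every field `L` containing `A`, all subgroups of `GL_2(L)` with denominators bounded by an
element `d ≠ 0` of `A` are in `C`. -/
def BoundedGL (C : ∀ (G : Type) [Group G], Prop) (A : Type) [CommRing A] : Prop :=
  ∀ (L : Type) [Field L] [Algebra A L], Function.Injective (algebraMap A L) →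
    ∀ G : Subgroup (Matrix.GeneralLinearGroup (Fin 2) L),
      (∃ d : A, d ≠ 0 ∧ ∀ g ∈ G, ∀ i j, ∃ a : A, algebraMap A L a =
        algebraMap A L d * (g : Matrix (Fin 2) (Fin 2) L) i j) → C G

/-- The polynomial `f` over the field `L` is the quotient of a polynomial with coefficients in `A`
by the element `d` of `A`. -/
def Den (A : Type) {L : Type} [CommRing A] [Field L] [Algebra A L] (d : A)
    (f : MvPolynomial (Fin 2) L) : Prop :=
  ∃ p : MvPolynomial (Fin 2) A, map (algebraMap A L) p = C (algebraMap A L d) * f

/-- All groups of polynomial automorphisms of the plane over the field of fractions of `A` with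
denominators bounded by an element `d ≠ 0` of `A` are in `C`. -/
def BoundedPlane (C : ∀ (G : Type) [Group G], Prop) (A : Type) [CommRing A] [IsDomain A] : Prop :=
  ∀ G : Subgroup (GA (FractionRing A)),
    (∃ d : A, d ≠ 0 ∧ ∀ g ∈ G, Den A d (g (X 0)) ∧ Den A d (g (X 1))) → C G

theorem result (C : ∀ (G : Type) [Group G], Prop) (hC : ClosedE C)
    (hS : ∀ (S : Type) [Group S], Group.IsSolvable S → C S) (hA : AcylF C) :
    -- (1)
    (∀ (K : Type) [Field K] [CharZero K], C (Matrix.GeneralLinearGroup (Fin 2) K) →
      Families C K) ∧
    -- (2)
    ((∀ m : ℕ, C (Matrix.GeneralLinearGroup (Fin m) ℚ)) → Families C (AlgebraicClosure ℚ)) ∧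
    -- (3)
    (∀ (A : Type) [CommRing A] [IsDomain A] [CharZero A] (I : Type), BoundedGL C A →
      BoundedPlane C (MvPolynomial I A)) := by
  have hM : ∀ (G : Type) [Group G], derivedSeries G 2 = ⊥ → C G := fun G _ h => hS G ⟨⟨2, h⟩⟩
  have key : ∀ (K : Type) [Field K] [CharZero K], C (Matrix.GeneralLinearGroup (Fin 2) K) →
      Families C K := by
    intro K _ _ hK A I _ i hi
    refine Pool.Agent.Zk53.PA.C_sub hC i hi (Pool.Agent.Zk53.PA.family hC hS hA _ ?_)
    exact Pool.Agent.Zk85.GL.BD.mv hC hM hA (Pool.Agent.Zk85.GL.BD.field hC hK) I
  refine ⟨key, ?_, ?_⟩
  · intro hL
    have : Algebra.IsAlgebraic ℚ (AlgebraicClosure ℚ) := AlgebraicClosure.isAlgebraic ℚ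
    exact key (AlgebraicClosure ℚ) (Pool.Agent.Zk53.PA.C_G2_alg hC hL _)
  · rintro A _ _ _ I hB G ⟨d, hd, hG⟩
    have hL : CharZero (FractionRing (MvPolynomial I A)) := charZero_of_injective_algebraMap
      (IsFractionRing.injective (MvPolynomial I A) (FractionRing (MvPolynomial I A)))
    refine Pool.Agent.Zk53.PA.plane (A := MvPolynomial I A) hC hS hA
      (Pool.Agent.Zk85.GL.BD.mv hC hM hA hB I) G d hd ?_
    intro g hg
    obtain ⟨⟨p, hp⟩, q, hq⟩ := hG g hg
    exact ⟨⟨p, hp⟩, ⟨q, hq⟩⟩

end Pool.Agent.Results.MP_5d3e93_al.FamiliesOfPlaneAutomorphisms
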