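import Pool.Agent.Zk7.FJ.McL

/-!
# Extensions whose kernel has invariant series of arbitrary order type

`C` is any class of groups with the closure properties `ClosedE C` which contains the metabelian
groups. All this is known for the class of the groups that satisfy the Farrell–Jones conjecture with
coefficients in additive categories and finite wreath products.

Let `N` be a normal subgroup of `G` with `G ⧸ N` in `C`.

(1) **Criterion.** Suppose that for every `g` in `G` and every finite subset `E` of `N` there are
finitely many subgroups `S 0 ≤ S 1 ≤ ... ≤ S k`, invariant under the conjugations by `g` and by the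
elements of `E`, such that the subgroup `P` generated by `E` and `g E g⁻¹` meets `S 0` trivially, is
contained in `S k`, and the groups `(P ∩ S (i+1)) / (P ∩ S i)` are commutative or finite
(`Resolves`). Then `G` is in `C`. Nothing is asked about the groups `S (i+1) / S i` themselves, and the
`S i` may depend on `g` and `E`. So it is enough that for each `g` there is a series of arbitrary order
type of `g`-invariant normal subgroups of `N` with commutative or locally finite factors, as long as
the finitely generated subgroups of `N` see only finitely many steps of it.

(2) **Unitriangular kernels.** Let `Λ` be a partially ordered set, `V i` an abelian group for each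
`i ∈ Λ`, and let `G` act on the direct sum `V` of the `V i` such that for each `g` there is an
automorphism `σ` of the ordered set `Λ` with `g V_{≤ i} = V_{≤ σ i}` for all `i`. Suppose that `N` acts
faithfully by finitary unitriangular automorphisms: `n - 1` has only finitely many nonzero entries,
all above the diagonal. Then `G` is in `C`.

For instance `N` may be any generalized McLain group, i.e. the group of all finitary unitriangular
matrices over an arbitrary ring with rows and columns indexed by an arbitrary ordered set, like
`(ℚ, ≤)`, and `G` its semidirect product with any group in `C` that acts on the ordered set and on the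
ring. Such `N` are in general perfect, and `G` need not leave any proper subgroup of `N` invariant.

Outline of the proof of (1). By the realization criterion one has to embed `P` in a group in `C` such
that the partial automorphism `φ : ⟨E⟩ → g ⟨E⟩ g⁻¹` of `P` becomes inner. One does this for
`P / (P ∩ S i)`, downwards in `i`. Let `A` be a commutative normal subgroup of `P`, invariant under `φ`,
and let `P / A` be embedded in `Q` in `C` such that `t ∈ Q` induces `φ` on `P / A`. Consider functions on `Q`
with values in a divisible group. They form injective modules over the subgroups of `Q`, so one can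
change the translation by `t` on pairs of functions to a map which extends `φ` on `A`. This defines a
module over the HNN extension of `Q` along `φ`, which is in `C`, and by the vanishing of the first
cohomology of the coinduced modules the split extension of this module contains `P` and realizes
`φ`. If `A` is finite one uses functions with values in the group of permutations of `A`.

Outline of the proof of (2). Let `p = (i, j)`, `i < j`, run through the finitely many pairs of indices
that occur in `E` and `g E g⁻¹`. The pairs `(k, l)` with `k ≤ σ^n i`, `σ^n j ≤ l` for some `n ∈ ℤ` are the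
places of the nonzero entries of an ideal invariant under `g`. These ideals are ordered by inclusion,
and `(i, j)`, `(j, k)` do not both belong to the ideal generated by `(i, k)`.
-/

set_option autoImplicit false

namespace Pool.Agent.Results.MP_5d3e93_al.InvariantSeries

open Pool.Agent.Y110.FJ Pool.Agent.Zk7.FJ

/-- `ρ g` maps `V_{≤ i}` onto `V_{≤ σ i}` for an automorphism `σ` of the ordered set `Λ`. -/
def PermutesSteps {G Λ : Type} [Group G] [PartialOrder Λ] [DecidableEq Λ] {V : Λ → Type}
    [∀ i, AddCommGroup (V i)] (ρ : G →* AddMonoid.End (Π₀ i, V i)) (g : G) : Prop :=
  ∃ σ : Λ ≃o Λ, ∀ (l : Λ) (v : V l) (k : Λ), (ρ g (DFinsupp.single l v) k ≠ 0 → k ≤ σ l) ∧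
    (ρ g⁻¹ (DFinsupp.single l v) k ≠ 0 → k ≤ σ.symm l)

/-- `x - 1` has only finitely many nonzero entries, all above the diagonal. -/
def FinUnitriangular {Λ : Type} [PartialOrder Λ] [DecidableEq Λ] {V : Λ → Type}
    [∀ i, AddCommGroup (V i)] (x : AddMonoid.End (Π₀ i, V i)) : Prop :=
  ∃ S : Finset Λ, ∀ (l : Λ) (v : V l) (k : Λ),
    (x (DFinsupp.single l v) - DFinsupp.single l v) k ≠ 0 → k < l ∧ k ∈ S ∧ l ∈ S

theorem result (C : ∀ (G : Type) [Group G], Prop) (hC : ClosedE C)
    (hmet : ∀ (S : Type) [Group S],
      (∀ a ∈ commutator S, ∀ b ∈ commutator S, a * b = b * a) → C S)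
    (G : Type) [Group G] (N : Subgroup G) [N.Normal] (hQ : C (G ⧸ N)) :
    ((∀ (g : G) (E : Set G), E.Finite → E ⊆ N →
      ∃ (k : ℕ) (S : ℕ → Subgroup G), Resolves g E k S) → C G) ∧
    (∀ (Λ : Type) [PartialOrder Λ] [DecidableEq Λ] (V : Λ → Type) [∀ i, AddCommGroup (V i)]
      (ρ : G →* AddMonoid.End (Π₀ i, V i)), (∀ n ∈ N, ρ n = 1 → n = 1) →
      (∀ g : G, PermutesSteps ρ g) → (∀ n ∈ N, FinUnitriangular (ρ n)) → C G) := by
  refine ⟨fun h => crit hC hmet N hQ h, ?_⟩
  intro Λ _ _ V _ ρ hinj hG hU
  refine mclain hC hmet N hQ ρ hinj ?_ ?_
  · intro g
    obtain ⟨σ, h⟩ := hG g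
    exact ⟨σ, fun l v k hk => (h l v k).1 hk, fun l v k hk => (h l v k).2 hk⟩
  · intro n hn
    obtain ⟨S, h⟩ := hU n hn
    exact ⟨S, fun l v k hk => h l v k hk⟩

end Pool.Agent.Results.MP_5d3e93_al.InvariantSeries
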