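import Pool.Agent.Zk9.PP.Alg

/-!
# Groups of polynomial automorphisms of the plane and the Farrell–Jones conjecture

`C` is any class of groups with the closure properties `ClosedE C` which contains the solvable groups
and satisfies `AcylF C`: a finitely generated group that acts on a tree without inversions, such that
for some `k` and `n` the pointwise stabilizers of the paths of length at least `k` have at most `n`
elements, is in `C` if the vertex stabilizers are in `C`. All this is known for the class of the groups
which satisfy the Farrell–Jones conjecture with coefficients in additive categories and finite wreath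
products (Bartels, Lück, Reich; Wegner; Knopf). This class also contains the groups `GL_m(ℚ)` (Rüping).

Let `k` be an algebraically closed field of characteristic zero, and let `AG k` be the group of the
affine automorphisms of the plane in the group `Aut k[x, y]` of all polynomial automorphisms.

(1) A subgroup `G` of `Aut k[x, y]` is in `C` if (and only if) the groups `G ∩ θ AG θ⁻¹` are in `C`,
for all `θ` in `Aut k[x, y]`. In particular `Aut k[x, y]` is in `C` if the affine group is.

(2) If `C` contains the groups `GL_m(ℚ)` then it contains the group of the polynomial automorphisms
of the plane over the algebraic numbers, with all its subgroups: for instance `Aut K[x, y]` for all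
number fields `K`, and `Aut ℤ[x, y]`.

Outline of the proof. By the theorem of Jung and van der Kulk `Aut k[x, y]` is the amalgamated product
of the affine group and the group of the triangular automorphisms `(a x + P(y), b y + c)`. The action on
the tree of this amalgam is not acylindrical. But the affine automorphisms and the triangular ones of
degree at most `D` generate a group `H_D` which is the amalgamated product of these two subgroups, and
the action of `H_D` on its own tree is acylindrical: let an element fix the two edges at a vertex of
affine type and the two next edges on both sides, where the polynomials `P` and `Q` of degrees `q` and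
`r` occur. In suitable coordinates it is `(a x + d, b y + c)`, with `a = b^q` and `b = a^r`, hence
`a ^ (q r - 1) = 1`, and `c` and `d` are determined by `a` and `b` because the characteristic is zero:
by the coefficients of `P` of the degrees `q` and `q - 1` for `q ≥ 3`, and by the next edge of the path
for `q = 2`. So the pointwise stabilizers of the paths of length `7` in the tree of `H_D` have less than
`D ^ 2` elements. A finitely generated group of automorphisms is contained in some `H_D`.
-/

set_option autoImplicit false

namespace Pool.Agent.Results.MP_5d3e93_al.PlaneAutomorphisms

open Pool.Agent.Y110.FJ (ClosedE)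
open Pool.Agent.N509.TX (AcylF)
open Pool.Agent.H922R2 (GA AG)

/-- the intersections of `G` with the conjugates of the affine group are in `C` -/
def AffineParts (C : ∀ (G : Type) [Group G], Prop) (k : Type) [Field k] (G : Subgroup (GA k)) :
    Prop := ∀ θ : GA k, C ↥(G ⊓ (AG k).map (MulAut.conj θ).toMonoidHom)

/-- `GA k` is the group of the automorphisms of the polynomial ring `k[x, y]`. -/
theorem result (C : ∀ (G : Type) [Group G], Prop) (hC : ClosedE C)
    (hS : ∀ (S : Type) [Group S], Group.IsSolvable S → C S) (hA : AcylF C) :
    (∀ (k : Type) [Field k] [IsAlgClosed k] [CharZero k],
      (∀ G : Subgroup (GA k), AffineParts C k G → C G) ∧ (C (AG k) → C (GA k))) ∧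
    ((∀ m : ℕ, C (Matrix.GeneralLinearGroup (Fin m) ℚ)) → C (GA (AlgebraicClosure ℚ))) := by
  have key : ∀ (k : Type) [Field k] [IsAlgClosed k] [CharZero k],
      (∀ G : Subgroup (GA k), AffineParts C k G → C G) ∧ (C (AG k) → C (GA k)) := by
    intro k _ _ _
    have hcj : ∀ θ : GA k,
        (AG k).map (MulAut.conj θ).toMonoidHom = Pool.Agent.Zk9.PP.cj θ (AG k) := by
      intro θ
      ext x
      rw [Pool.Agent.Zk9.PP.mem_cj, Subgroup.mem_map]
      constructor
      · rintro ⟨y, hy, rfl⟩
        have : θ⁻¹ * ((MulAut.conj θ).toMonoidHom y) * θ = y := by
          show θ⁻¹ * (θ * y * θ⁻¹) * θ = y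
          group
        rwa [this]
      · intro hx
        refine ⟨_, hx, ?_⟩
        show θ * (θ⁻¹ * x * θ) * θ⁻¹ = x
        group
    have h2 : ∀ G : Subgroup (GA k), AffineParts C k G → C G := by
      intro G hG
      exact Pool.Agent.Zk9.PP.main hC hS hA G fun θ => by rw [← hcj]; exact hG θ
    refine ⟨h2, fun hAG => ?_⟩
    have h3 : C (⊤ : Subgroup (GA k)) := by
      refine h2 ⊤ fun θ => ?_
      rw [top_inf_eq]
      have e := (AG k).equivMapOfInjective (MulAut.conj θ).toMonoidHom (MulAut.conj θ).injective
      exact hC.base.of_injective _ _ e.symm.toMonoidHom e.symm.injective hAG
    have e := (Subgroup.topEquiv (G := GA k)).symm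
    exact hC.base.of_injective _ _ e.toMonoidHom e.injective h3
  refine ⟨key, fun hL => ?_⟩
  exact (key (AlgebraicClosure ℚ)).2 (@Pool.Agent.Zk9.PP.C_AG_alg C hC hL (AlgebraicClosure ℚ) _
    (AlgebraicClosure.instAlgebra ℚ) (AlgebraicClosure.isAlgebraic ℚ))

end Pool.Agent.Results.MP_5d3e93_al.PlaneAutomorphisms
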